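import Pool.Agent.J6H49.LC.Fin

/-!
# A co-sparse set in `NP` which is not low for the second level, relative to nearly collapsed oracles

The question is whether every co-sparse set `A` in `NP` is low for `Σ₂`, that is whether `Σ₂` relative
to `A` equals `Σ₂`. Sparse sets in `NP` are low for `Δ₂`, also relative to every oracle. We show that
the answer for co-sparse sets is negative relative to some oracles `O`, which may contain any given
oracle `C` and which may be nearly collapsed (polynomial space is in time `n ^ O(α n)`, with an
arbitrarily slowly growing function `α`), and for a set `A` in `NP` whose complement has at most
`f n` elements of length at most `n`, for an arbitrarily slowly growing function `f`: there is a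
language `L` in `coNP` relative to `O` and `A` which is not in `Σ₂` relative to `O`.

**The proof.** Every string `x` has a secret of length `|x|`, or none, and `A` is the set of the
strings with a secret. The language `L` is the set of all `y` such that all the strings of length
`|y|` have secrets. For large `n`, the codes which make the oracle nearly collapsed and which a given
machine can read on input `1 ^ n` do not depend on the secrets of the strings of length `n`. If a
machine with two quantifiers accepts `1 ^ n` whenever all the secrets exist, and rejects it whenever
one secret is missing, then there is a witness `u` which is accepted for a large set `F` of tables of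
secrets; and for every table in `F` and every `x` there is a small set of other strings such that the
secrets of these strings determine the secret of `x`, apart from a few possibilities, among all tables
in `F`. By a counting argument as in the satisfiability coding lemma of Paturi, Pudlák and Zane,
then `F` is small.
-/

set_option autoImplicit false

namespace Pool.Agent.Results.MP_2bf3f9_lc.NearCollapse

open Filter Pool.Agent.NPC Pool.Agent.H628R3.RO
open Pool.Agent.J6H49.OP (NearlyCollapsed Contains)
open Pool.Agent.TH678.GC (join)
open Pool.Agent.J6H49.AM (IsSigma2)
open Pool.Agent.J6H49.LC (ind)

/-- Let `α` and `f` be nondecreasing and unbounded and let `C` be any oracle. There are an oracle `O`,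
which is nearly collapsed with the function `α` and contains `C`, and a set `A` such that, relative
to `O`: `A` is in `NP`; at most `f n` strings of length at most `n` are not in `A`; and there is a
language `L` which is in `coNP` and in `Σ₂` if `A` is an additional oracle, but which is not in `Σ₂`
(without this additional oracle). -/
theorem result (α f : ℕ → ℕ) (hα : Monotone α) (hα' : Tendsto α atTop atTop) (hf : Monotone f)
    (hf' : Tendsto f atTop atTop) (C : Oracle) :
    ∃ (O : Oracle) (A : Set (List Bool)), NearlyCollapsed α O ∧ Contains O C ∧ IsNP O A ∧
      (∀ n, {x : List Bool | x ∉ A ∧ x.length ≤ n}.ncard ≤ f n) ∧
      ∃ L, IsCoNP (join O (ind A)) L ∧ IsSigma2 (join O (ind A)) L ∧ ¬ IsSigma2 O L :=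
  Pool.Agent.J6H49.LC.main α f hα hα' hf hf' C

end Pool.Agent.Results.MP_2bf3f9_lc.NearCollapse
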